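import Pool.Agent.H223R3.Tree.Pack

set_option autoImplicit false

namespace Pool.Agent.Results.MP_2b1ae8_co.PackMinDegree

/-- `T_2, ..., T_k` pack into every graph of minimum degree at least `k - 1` on
`n > 2 k + 1 - √(8 k)` vertices. -/
theorem result (k : ℕ) (hk : 2 ≤ k) (V : Type) [Finite V] [Nonempty V]
    (hn : 2 * (k : ℝ) + 1 - Real.sqrt (8 * k) < Nat.card V)
    (T : (i : ℕ) → SimpleGraph (Fin i)) (hT : ∀ i, 2 ≤ i → i ≤ k → (T i).IsTree)
    (G : SimpleGraph V) (hG : ∀ v : V, k - 1 ≤ (G.neighborSet v).ncard) :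
    ∃ f : (i : ℕ) → Fin i → V,
      (∀ i, 2 ≤ i → i ≤ k → Function.Injective (f i) ∧
        ∀ a b : Fin i, (T i).Adj a b → G.Adj (f i a) (f i b)) ∧
      (∀ i j, 2 ≤ i → i ≤ k → 2 ≤ j → j ≤ k → i ≠ j →
        ∀ (a b : Fin i) (c d : Fin j), (T i).Adj a b → (T j).Adj c d →
          s(f i a, f i b) ≠ s(f j c, f j d)) :=
  H223R3.Tree.pack k hk T hT G (H223R3.Tree.min_degree_edges k G hG) hn

end Pool.Agent.Results.MP_2b1ae8_co.PackMinDegree
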